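import Pool.Agent.H28.N6.Targets

/-!
# MP_63b6b1_nt, row DDIR: the table for the directions
-/

set_option autoImplicit false

namespace Pool.Agent.H46.N6D
open MeasureTheory Pool.Agent.H28.N6

section

variable {F : Type} [NontriviallyNormedField F] [IsUltrametricDist F] [ProperSpace F]
    [MeasurableSpace F] [BorelSpace F] (D : Dat F)

theorem dir_full (x y : F) (m : ℕ) (h : max ‖x‖ ‖y‖ ≤ ‖D.p‖ ^ m) :
    dir D x y m = 1 + (D.q : ℝ)⁻¹ := by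
  have hx := (le_max_left _ _).trans h
  have hy := (le_max_right _ _).trans h
  have key : ∀ u v t : F, ‖u‖ ≤ ‖D.p‖ ^ m → ‖v‖ ≤ ‖D.p‖ ^ m → ‖t‖ ≤ 1 →
      ‖u + t * v‖ ≤ ‖D.p‖ ^ m := by
    intro u v t hu hv ht
    refine (IsUltrametricDist.norm_add_le_max u (t * v)).trans (max_le hu ?_)
    rw [norm_mul]
    calc ‖t‖ * ‖v‖ ≤ 1 * ‖v‖ := by gcongr
      _ ≤ _ := by rwa [one_mul]
  have e1 : {t : F | ‖t‖ ≤ 1 ∧ ‖x + t * y‖ ≤ ‖D.p‖ ^ m} = {t : F | ‖t‖ ≤ 1} := by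
    ext t
    exact ⟨fun h => h.1, fun ht => ⟨ht, key x y t hx hy ht⟩⟩
  have e2 : {t : F | ‖t‖ ≤ ‖D.p‖ ∧ ‖t * x + y‖ ≤ ‖D.p‖ ^ m} = {t : F | ‖t‖ ≤ ‖D.p‖} := by
    ext t
    refine ⟨fun h => h.1, fun ht => ⟨ht, ?_⟩⟩
    rw [add_comm]
    exact key y x t hy hx (le_trans ht D.p1.le)
  unfold dir
  rw [e1, e2, D.one, D.idx]
  simp

theorem dir_unit (hONE : T_ONE) (x y : F) (n : ℕ) (hn : 1 ≤ n) (h : max ‖x‖ ‖y‖ = 1) :
    dir D x y n = ((D.q : ℝ) ^ n)⁻¹ := by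
  have hp0 : 0 < ‖D.p‖ := norm_pos_iff.2 D.p0
  have hpn : ‖D.p‖ ^ n ≤ ‖D.p‖ := by
    calc ‖D.p‖ ^ n ≤ ‖D.p‖ ^ 1 := pow_le_pow_of_le_one hp0.le D.p1.le hn
      _ = ‖D.p‖ := pow_one _
  have hpn1 : ‖D.p‖ ^ n < 1 := hpn.trans_lt D.p1
  have hx : ‖x‖ ≤ 1 := h ▸ le_max_left _ _
  have hy : ‖y‖ ≤ 1 := h ▸ le_max_right _ _
  -- strict inequality
  have hst : ∀ u v : F, ‖u‖ = 1 → ‖v‖ < 1 → ‖u + v‖ = 1 := by
    intro u v hu hv
    rw [IsUltrametricDist.norm_add_eq_max_of_norm_ne_norm (by rw [hu]; exact hv.ne'), hu,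
      max_eq_left hv.le]
  have hone : ∀ u v : F, ‖v‖ = 1 → ‖u‖ ≤ 1 →
      (D.μ {t : F | ‖t‖ ≤ 1 ∧ ‖u + t * v‖ ≤ ‖D.p‖ ^ n}).toReal = ((D.q : ℝ) ^ n)⁻¹ := by
    intro u v hv hu
    have h1 := hONE F D (fun t => u + t * v) 0 n (fun s t _ _ => by
      rw [add_sub_add_left_eq_sub, ← sub_mul, norm_mul, hv, pow_zero, mul_one, one_mul])
      (Nat.zero_le _)
    rw [h1, if_pos (by simpa using hu), Nat.sub_zero]
  unfold dir
  rcases lt_or_ge ‖y‖ 1 with hy1 | hy1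
  · have hx1 : ‖x‖ = 1 := by
      rcases le_total ‖x‖ ‖y‖ with h' | h'
      · rw [max_eq_right h'] at h
        exact absurd h hy1.ne
      · rwa [max_eq_left h'] at h
    have e1 : {t : F | ‖t‖ ≤ 1 ∧ ‖x + t * y‖ ≤ ‖D.p‖ ^ n} = ∅ := by
      ext t
      simp only [Set.mem_setOf_eq, Set.mem_empty_iff_false, iff_false, not_and, not_le]
      intro ht
      rw [hst x (t * y) hx1 (by
        rw [norm_mul]
        calc ‖t‖ * ‖y‖ ≤ 1 * ‖y‖ := by gcongr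
          _ < 1 := by rwa [one_mul])]
      exact hpn1
    have e2 : {t : F | ‖t‖ ≤ ‖D.p‖ ∧ ‖t * x + y‖ ≤ ‖D.p‖ ^ n} =
        {t : F | ‖t‖ ≤ 1 ∧ ‖y + t * x‖ ≤ ‖D.p‖ ^ n} := by
      ext t
      simp only [Set.mem_setOf_eq]
      rw [add_comm (t * x) y]
      refine ⟨fun h => ⟨h.1.trans D.p1.le, h.2⟩, fun h => ⟨?_, h.2⟩⟩
      have h3 : ‖t‖ = ‖(y + t * x) - y‖ := by
        rw [add_sub_cancel_left, norm_mul, hx1, mul_one]
      rw [h3, sub_eq_add_neg]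
      refine (IsUltrametricDist.norm_add_le_max _ _).trans (max_le (h.2.trans hpn) ?_)
      rw [norm_neg]
      exact D.gen y hy1
    rw [e1, e2, measure_empty, ENNReal.toReal_zero, zero_add]
    exact hone y x hx1 hy
  · have hy1' : ‖y‖ = 1 := le_antisymm hy hy1
    have e2 : {t : F | ‖t‖ ≤ ‖D.p‖ ∧ ‖t * x + y‖ ≤ ‖D.p‖ ^ n} = ∅ := by
      ext t
      simp only [Set.mem_setOf_eq, Set.mem_empty_iff_false, iff_false, not_and, not_le]
      intro ht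
      rw [add_comm, hst y (t * x) hy1' (by
        rw [norm_mul]
        calc ‖t‖ * ‖x‖ ≤ ‖D.p‖ * 1 := by gcongr
          _ < 1 := by rw [mul_one]; exact D.p1)]
      exact hpn1
    rw [e2, measure_empty, ENNReal.toReal_zero, add_zero]
    exact hone x y hy1' hx

theorem dir_big (hONE : T_ONE) (x y : F) (m n : ℕ) (k : ℤ) (hn : 1 ≤ n) (hk : (m : ℤ) = k + n)
    (h : max ‖x‖ ‖y‖ = ‖D.p‖ ^ k) : dir D x y m = ((D.q : ℝ) ^ n)⁻¹ := by
  have hp0 : 0 < ‖D.p‖ := norm_pos_iff.2 D.p0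
  have hc0 : 0 < ‖D.p‖ ^ (-k) := zpow_pos hp0 _
  have hs : ∀ z : F, ‖z‖ ≤ ‖D.p‖ ^ m ↔ ‖D.p ^ (-k) * z‖ ≤ ‖D.p‖ ^ n := by
    intro z
    rw [norm_mul, norm_zpow]
    have e : ‖D.p‖ ^ n = ‖D.p‖ ^ (-k) * ‖D.p‖ ^ m := by
      rw [← zpow_natCast, ← zpow_natCast ‖D.p‖ m, ← zpow_add₀ hp0.ne', hk]
      congr 1
      ring
    rw [e, mul_le_mul_iff_right₀ hc0]
  have h1 : dir D x y m = dir D (D.p ^ (-k) * x) (D.p ^ (-k) * y) n := by
    unfold dir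
    have e1 : ∀ t : F, D.p ^ (-k) * x + t * (D.p ^ (-k) * y) = D.p ^ (-k) * (x + t * y) := by
      intro t
      ring
    have e2 : ∀ t : F, t * (D.p ^ (-k) * x) + D.p ^ (-k) * y = D.p ^ (-k) * (t * x + y) := by
      intro t
      ring
    simp only [e1, e2, ← hs]
  rw [h1]
  refine dir_unit D hONE _ _ n hn ?_
  rw [norm_mul, norm_mul, ← mul_max_of_nonneg _ _ (norm_nonneg _), h, norm_zpow,
    ← zpow_add₀ hp0.ne', neg_add_cancel, zpow_zero]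

end

theorem pf_DIR (hONE : T_ONE) (hNRM : T_NRM) (hBAL : T_BAL) : T_DIR := by
  intro F _ _ _ _ _ D x y m
  have hp0 : 0 < ‖D.p‖ := norm_pos_iff.2 D.p0
  have hq0 : (D.q : ℝ) ≠ 0 := by
    have := D.hq
    positivity
  have hK : 0 < max ‖x‖ ‖y‖ → ∃ k : ℤ, max ‖x‖ ‖y‖ = ‖D.p‖ ^ k := by
    intro h0
    rcases le_total ‖x‖ ‖y‖ with h | h
    · rw [max_eq_right h] at h0 ⊢
      exact hNRM F D y (norm_pos_iff.1 h0)
    · rw [max_eq_left h] at h0 ⊢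
      exact hNRM F D x (norm_pos_iff.1 h0)
  have hlt : ∀ a b : ℤ, ‖D.p‖ ^ a < ‖D.p‖ ^ b → b < a := fun a b hab =>
    (zpow_lt_zpow_iff_right_of_lt_one₀ hp0 D.p1).1 hab
  have hle : ∀ a b : ℤ, ‖D.p‖ ^ a ≤ ‖D.p‖ ^ b → b ≤ a := fun a b hab =>
    (zpow_le_zpow_iff_right_of_lt_one₀ hp0 D.p1).1 hab
  have hmono : ∀ a b : ℕ, a ≤ b → ‖D.p‖ ^ b ≤ ‖D.p‖ ^ a := fun a b hab =>
    pow_le_pow_of_le_one hp0.le D.p1.le hab
  refine ⟨fun h => ?_, fun h1 h2 => ?_, fun h => ?_⟩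
  · obtain ⟨k, hk⟩ := hK ((pow_pos hp0 m).trans h)
    rw [hk, ← zpow_natCast] at h
    have h3 := hlt _ _ h
    obtain ⟨n, hn⟩ : ∃ n : ℕ, (m : ℤ) = k + n := ⟨(m - k).toNat, by omega⟩
    have hn1 : 1 ≤ n := by omega
    unfold TT
    rw [dir_big D hONE x y m n k hn1 hn hk,
      dir_big D hONE x y (m + 1) (n + 1) k (by omega) (by push_cast; omega) hk,
      dir_big D hONE x y (m + 2) (n + 2) k (by omega) (by push_cast; omega) hk]
    field_simp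
    ring
  · obtain ⟨k, hk⟩ := hK ((pow_pos hp0 (m + 1)).trans_le h2)
    have h3 := h1
    have h4 := h2
    rw [hk, ← zpow_natCast] at h3 h4
    have h5 := hle _ _ h3
    have h6 := hle _ _ h4
    have h7 : k = m ∨ k = m + 1 := by
      push_cast at h6
      omega
    unfold TT
    rcases h7 with h7 | h7
    · rw [dir_full D x y m h1,
        dir_big D hONE x y (m + 1) 1 k (by omega) (by push_cast; omega) hk,
        dir_big D hONE x y (m + 2) 2 k (by omega) (by push_cast; omega) hk]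
      field_simp
      ring
    · have h8 : max ‖x‖ ‖y‖ ≤ ‖D.p‖ ^ (m + 1) := by
        rw [hk, h7]
        exact_mod_cast le_refl _
      rw [dir_full D x y m h1, dir_full D x y (m + 1) h8,
        dir_big D hONE x y (m + 2) 1 k (by omega) (by push_cast; omega) hk]
      field_simp
      ring
  · unfold TT
    rw [dir_full D x y m (h.trans (hmono _ _ (by omega))),
      dir_full D x y (m + 1) (h.trans (hmono _ _ (by omega))), dir_full D x y (m + 2) h]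
    field_simp
    ring

end Pool.Agent.H46.N6D
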